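import Pool.Agent.Helper89.RR.Pack
import Pool.Agent.Helper83.RR.EE

set_option autoImplicit false
set_option linter.unusedSectionVars false

open MeasureTheory Filter Topology
open scoped ENNReal

namespace Pool.Agent.Helper60.RR
namespace Act

variable {Ω : Type*} [MeasurableSpace Ω] {E : Type*} [NormedAddCommGroup E] [NormedSpace ℝ E]
variable {R : Act Ω E} {x : E} {χ : E →L[ℝ] ℝ} {m : Measure Ω}

/-- the module of vectors on an invariant part: family of the exhaustion -/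
lemma BM.inv_ind {h : Ω → ℝ} (hh : BM h) (hm : Measurable[R.mB] h) {S : Set Ω} (hS : R.Inv S) :
    BM (S.indicator h) ∧ Measurable[R.mB] (S.indicator h) :=
  ⟨hh.indicator hS.1, Measurable.indicator hm hS⟩

lemma M_zero (R : Act Ω E) (y : E) : R.M 0 y = 0 := by
  have h := R.smul (a := (1 : Ω → ℝ)) 0 BM.one
  rw [zero_smul, zero_smul] at h
  rw [h]; rfl

/-- (6a) the vectors `(a - E a) x` -/
lemma Pack.mem_dev [CompleteSpace E] (h : R.Pack x χ m) {V : Submodule ℝ E}
    (hVD : ∀ D : E →L[ℝ] E, Skew D → ∀ v ∈ V, D v ∈ V) (hx : x ∈ V) {a p : Ω → ℝ} (ha : BM a)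
    (hp : BM p) (hap : p =ᵐ[m] m[a|R.mB]) : R.M (a - p) x ∈ V := by
  have _ := h.fin
  obtain ⟨EE, hEE⟩ := h.exists_EE
  have h1 : EE x = x := by
    have := hEE (fun _ => 1) (fun _ => 1) (BM.const 1) (BM.const 1) (by
      rw [condExp_const R.mB_le])
    have e : R.M (fun _ => 1) x = x := R.one x
    rwa [e] at this
  have h2 := hVD _ (h.skew_comm hEE ha) x hx
  have h3 : (EE.comp (R.M a) - (R.M a).comp EE) x = -(R.M (a - p) x) := by
    change EE (R.M a x) - R.M a (EE x) = _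
    rw [h1, hEE a p ha hp hap, M_sub ha hp, neg_sub]
  rw [h3] at h2
  exact (Submodule.neg_mem_iff V).1 h2

/-- (6b) the vectors `h (p - p²) x`, `p = E 1_A` -/
lemma Pack.mem_cov [CompleteSpace E] (h : R.Pack x χ m) {V : Submodule ℝ E}
    (hVD : ∀ D : E →L[ℝ] E, Skew D → ∀ v ∈ V, D v ∈ V) (hx : x ∈ V) {A : Set Ω}
    (hA : MeasurableSet A) {p k : Ω → ℝ} (hp : BM p) (hpm : Measurable[R.mB] p)
    (hap : p =ᵐ[m] m[A.indicator 1|R.mB]) (hk : BM k) (hkm : Measurable[R.mB] k) :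
    R.M (k * (p - p * p)) x ∈ V := by
  have _ := h.fin
  obtain ⟨EE, hEE⟩ := h.exists_EE
  have hA1 : BM (A.indicator (1 : Ω → ℝ)) := bmInd hA
  have hpi : Integrable p m := hp.integrable m
  have hce_p : m[p|R.mB] = p := condExp_of_stronglyMeasurable R.mB_le hpm.stronglyMeasurable hpi
  set u : Ω → ℝ := A.indicator 1 - p with hu
  have hub : BM u := hA1.sub hp
  have huV : R.M u x ∈ V := h.mem_dev hVD hx hA1 hp hap
  set a : Ω → ℝ := k * A.indicator 1 with ha
  have hab : BM a := hk.mul hA1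
  have h2 := hVD _ (h.skew_comm hEE hab) _ huV
  have e1 : EE (R.M u x) = 0 := by
    have h3 : (0 : Ω → ℝ) =ᵐ[m] m[u|R.mB] := by
      have h4 := condExp_sub (hA1.integrable m) hpi R.mB
      rw [hce_p] at h4
      filter_upwards [h4, hap] with ω h5 h6
      rw [h5, Pi.sub_apply, ← h6, sub_self]
      rfl
    have h4 := hEE u 0 hub (BM.const 0) h3
    rw [h4, M_zero]
  have e2 : EE (R.M a (R.M u x)) = R.M (k * (p - p * p)) x := by
    rw [← R.mul hab hub]
    refine hEE _ _ (hab.mul hub) (hk.mul (hp.sub (hp.mul hp))) ?_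
    have e3 : a * u = k * (A.indicator 1 - p * A.indicator 1) := by
      ext ω
      by_cases hω : ω ∈ A
      · simp [ha, hu, hω]
      · simp [ha, hu, hω]
    rw [e3]
    have hpA : BM (p * A.indicator (1 : Ω → ℝ)) := hp.mul hA1
    have h5 := condExp_mul_of_stronglyMeasurable_left (m := R.mB) (μ := m) hkm.stronglyMeasurable
      ((hk.mul (hA1.sub hpA)).integrable m) ((hA1.sub hpA).integrable m)
    have h6 := condExp_sub (hA1.integrable m) (hpA.integrable m) R.mB
    have h7 := condExp_mul_of_stronglyMeasurable_left (m := R.mB) (μ := m) hpm.stronglyMeasurable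
      (hpA.integrable m) (hA1.integrable m)
    filter_upwards [h5, h6, h7, hap] with ω g5 g6 g7 g8
    simp only [Pi.mul_apply, Pi.sub_apply] at g5 g6 g7 ⊢
    rw [g5, g6, g7, ← g8]
  have h3 : (EE.comp (R.M a) - (R.M a).comp EE) (R.M u x) = R.M (k * (p - p * p)) x := by
    change EE (R.M a (R.M u x)) - R.M a (EE (R.M u x)) = _
    rw [e1, e2, map_zero, sub_zero]
  rwa [h3] at h2

/-- (6c) a part on which every measurable set is invariant carries nothing -/
lemma Pack.null_of_all_inv (h : R.Pack x χ m)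
    (hne : ∀ y : E, y ≠ 0 → ∃ D : E →L[ℝ] E, Skew D ∧ D y ≠ 0) {C : Set Ω}
    (hC : ∀ A, MeasurableSet A → A ⊆ C → R.Inv A) (hCm : MeasurableSet C) : R.P C x = 0 := by
  by_contra hy
  obtain ⟨D, hD, hDy⟩ := hne _ hy
  obtain ⟨γ, hγ, hγ1⟩ := h.unit (D (R.P C x))
  set A : ℕ → Set Ω := fun n => C ∩ {ω | ‖γ ω‖ ≤ n} with hA
  have hAm : ∀ n, MeasurableSet (A n) := fun n => hCm.inter (sub_meas hγ n)
  have hAC : ∀ n, A n ⊆ C := fun n => Set.inter_subset_left
  have hCI : R.Inv C := hC C hCm subset_rfl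
  -- main estimate on the parts where the multiplier has a sign
  have key : ∀ (s : ℝ) (D : E →L[ℝ] E), Skew D → ∀ B : Set Ω, MeasurableSet B → B ⊆ C →
      ∀ c : Ω → ℝ, BM (B.indicator c) → 0 < s → (∀ ω ∈ B, s ≤ c ω) →
      R.P B (D (R.P C x)) = R.M (B.indicator c) x → R.P B x = 0 := by
    intro s D hD B hB hBC c hc hs hsc he
    obtain ⟨ψ, hψ⟩ := exists_norming (R.P B x)
    have h1 := hD _ ψ hψ
    have h2 : D (R.P B x) = R.M (B.indicator c) x := by
      have h3 : R.P B x = R.P B (R.P C x) := by rw [R.P_P hB hCm, Set.inter_eq_left.2 hBC]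
      rw [h3, ← (hC B hB hBC).2 D hD, he]
    obtain ⟨m', hfin', -, hint'⟩ := R.exists_measure (f := R.P B x) (ψ := ψ)
      (fun A hA => R.psi_P_nonneg hψ hA)
    have h4 : R.M (B.indicator c) x = R.M (B.indicator c) (R.P B x) := by
      rw [R.M_mul_ind' hB hc, Set.indicator_indicator, Set.inter_self]
    have h5 : R.M (B.indicator 1) (R.P B x) = R.P B x := by
      change R.P B (R.P B x) = _
      rw [R.P_P hB hB, Set.inter_self]
    rw [h2, h4, hint' _ hc] at h1
    have h6 : ψ (R.P B x) = ∫ ω, B.indicator (1 : Ω → ℝ) ω ∂m' := by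
      rw [← hint' _ (bmInd hB), h5]
    have h7 : s * ∫ ω, B.indicator (1 : Ω → ℝ) ω ∂m' ≤ ∫ ω, B.indicator c ω ∂m' := by
      rw [← integral_const_mul]
      refine integral_mono (((bmInd hB).integrable m').const_mul s) (hc.integrable m') ?_
      intro ω
      by_cases hω : ω ∈ B
      · simpa [hω] using hsc ω hω
      · simp [hω]
    rw [h1, ← h6, hψ.2] at h7
    have h8 : ‖R.P B x‖ ≤ 0 := by
      by_contra h9
      have := mul_pos hs (not_le.1 h9)
      linarith
    exact norm_le_zero_iff.1 h8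
  -- level sets
  have hpos : ∀ n k : ℕ, R.P (A n ∩ {ω | 1 / ((k : ℝ) + 1) ≤ γ ω}) x = 0 := by
    intro n k
    set B := A n ∩ {ω | 1 / ((k : ℝ) + 1) ≤ γ ω} with hB
    have hBm : MeasurableSet B := (hAm n).inter (measurableSet_le measurable_const hγ)
    have hbd : ∃ K : ℝ, ∀ ω ∈ B, ‖γ ω‖ ≤ K := ⟨n, fun ω h => h.1.2⟩
    exact key (1 / ((k : ℝ) + 1)) D hD B hBm (Set.inter_subset_left.trans (hAC n)) γ
      (bm_of_bdd hγ hBm hbd) (by positivity) (fun ω hω => hω.2) (hγ1 B hBm hbd)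
  have hneg : ∀ n k : ℕ, R.P (A n ∩ {ω | γ ω ≤ -(1 / ((k : ℝ) + 1))}) x = 0 := by
    intro n k
    set B := A n ∩ {ω | γ ω ≤ -(1 / ((k : ℝ) + 1))} with hB
    have hBm : MeasurableSet B := (hAm n).inter (measurableSet_le hγ measurable_const)
    have hbd : ∃ K : ℝ, ∀ ω ∈ B, ‖γ ω‖ ≤ K := ⟨n, fun ω h => h.1.2⟩
    have hb1 : BM (B.indicator γ) := bm_of_bdd hγ hBm hbd
    have e : B.indicator (fun ω => -γ ω) = (-1 : ℝ) • B.indicator γ := by
      ext ω
      by_cases hω : ω ∈ B <;> simp [hω]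
    refine key (1 / ((k : ℝ) + 1)) ((-1 : ℝ) • D) (hD.smul _) B hBm
      (Set.inter_subset_left.trans (hAC n)) (fun ω => -γ ω) (by rw [e]; exact hb1.smul _)
      (by positivity) (fun ω hω => ?_) ?_
    · have := hω.2
      rw [Set.mem_ofPred_eq] at this
      linarith
    · rw [e, R.smul _ hb1]
      change R.P B ((-1 : ℝ) • D (R.P C x)) = (-1 : ℝ) • R.M (B.indicator γ) x
      rw [map_smul, hγ1 B hBm hbd]
  have hz : ∀ n, R.P (A n) (D (R.P C x)) = 0 := by
    intro n
    have hbd : ∃ K : ℝ, ∀ ω ∈ A n, ‖γ ω‖ ≤ K := ⟨n, fun ω h => h.2⟩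
    have hb : BM ((A n).indicator γ) := bm_of_bdd hγ (hAm n) hbd
    have h1 := P_iUnion_zero R (fun k : ℕ => (hAm n).inter (measurableSet_le measurable_const hγ))
      (hpos n)
    have h2 := P_iUnion_zero R (fun k : ℕ => (hAm n).inter (measurableSet_le hγ measurable_const))
      (hneg n)
    set U₁ := ⋃ k : ℕ, A n ∩ {ω | 1 / ((k : ℝ) + 1) ≤ γ ω} with hU1
    set U₂ := ⋃ k : ℕ, A n ∩ {ω | γ ω ≤ -(1 / ((k : ℝ) + 1))} with hU2
    have hU1m : MeasurableSet U₁ :=
      MeasurableSet.iUnion fun k => (hAm n).inter (measurableSet_le measurable_const hγ)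
    have hU2m : MeasurableSet U₂ :=
      MeasurableSet.iUnion fun k => (hAm n).inter (measurableSet_le hγ measurable_const)
    have h3 : R.P (U₁ ∪ U₂) x = 0 := by
      have e : U₁ ∪ U₂ = U₁ ∪ (U₂ \ U₁) := by rw [Set.union_sdiff_self]
      rw [e, R.P_union hU1m (hU2m.diff hU1m) Set.disjoint_sdiff_right, h1, zero_add]
      exact R.P_mono_zero (hU2m.diff hU1m) hU2m Set.sdiff_subset h2
    have e4 : (A n).indicator γ = (U₁ ∪ U₂).indicator ((A n).indicator γ) := by
      ext ω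
      by_cases hω : ω ∈ A n
      · by_cases h0 : γ ω = 0
        · by_cases h5 : ω ∈ U₁ ∪ U₂
          · rw [Set.indicator_of_mem h5]
          · rw [Set.indicator_of_notMem h5, Set.indicator_of_mem hω, h0]
        · have h5 : ω ∈ U₁ ∪ U₂ := by
            obtain ⟨k, hk⟩ := exists_nat_one_div_lt (abs_pos.2 h0)
            rcases le_total 0 (γ ω) with h6 | h6
            · rw [abs_of_nonneg h6] at hk
              exact Or.inl (Set.mem_iUnion.2 ⟨k, hω, hk.le⟩)
            · rw [abs_of_nonpos h6] at hk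
              refine Or.inr (Set.mem_iUnion.2 ⟨k, hω, ?_⟩)
              rw [Set.mem_ofPred_eq]
              linarith
          rw [Set.indicator_of_mem h5]
      · by_cases h5 : ω ∈ U₁ ∪ U₂
        · rw [Set.indicator_of_mem h5]
        · rw [Set.indicator_of_notMem h5, Set.indicator_of_notMem hω]
    rw [hγ1 _ (hAm n) hbd, e4, ← R.M_mul_ind' (hU1m.union hU2m) hb, h3, map_zero]
  have hU : (⋃ n, A n) = C := by
    ext ω
    simp only [hA, Set.mem_iUnion, Set.mem_inter_iff, Set.mem_ofPred_eq]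
    constructor
    · rintro ⟨n, h, -⟩; exact h
    · intro h
      obtain ⟨n, hn⟩ := exists_nat_ge ‖γ ω‖
      exact ⟨n, h, hn⟩
  have h9 := P_iUnion_zero R hAm hz
  rw [hU, hCI.2 D hD, R.P_P hCm hCm, Set.inter_self] at h9
  exact hDy h9

/-- sets which agree up to null sets have the same projection -/
lemma Pack.P_congr (h : R.Pack x χ m) {A Q : Set Ω} (hA : MeasurableSet A) (hQ : MeasurableSet Q)
    (h1 : m (A \ Q) = 0) (h2 : m (Q \ A) = 0) (f : E) : R.P A f = R.P Q f := by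
  have e1 := h.unit.P_eq_zero (hA.diff hQ) (h.faith _ (hA.diff hQ) h1) f
  have e2 := h.unit.P_eq_zero (hQ.diff hA) (h.faith _ (hQ.diff hA) h2) f
  have e3 : R.P A f = R.P (A ∩ Q) f + R.P (A \ Q) f := by
    rw [← R.P_union (hA.inter hQ) (hA.diff hQ), Set.inter_union_sdiff]
    exact Set.disjoint_left.2 fun ω h1 h2 => h2.2 h1.2
  have e4 : R.P Q f = R.P (A ∩ Q) f + R.P (Q \ A) f := by
    rw [← R.P_union (hA.inter hQ) (hQ.diff hA), Set.inter_comm, Set.inter_union_sdiff]
    exact Set.disjoint_left.2 fun ω h1 h2 => h2.2 h1.1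
  rw [e3, e4, e1, e2]

/-- (6d) if `E 1_A` is `0` or `1` almost everywhere off `N`, then `A ⊆ Nᶜ` is invariant -/
lemma Pack.inv_of_ce (h : R.Pack x χ m) {N A : Set Ω} (hN : R.Inv N) (hA : MeasurableSet A)
    (hAN : A ⊆ Nᶜ) {p : Ω → ℝ} (hp : BM p) (hpm : Measurable[R.mB] p)
    (hap : p =ᵐ[m] m[A.indicator 1|R.mB]) (h01 : ∀ᵐ ω ∂m, ω ∉ N → p ω - p ω * p ω = 0) :
    R.Inv A := by
  have _ := h.fin
  have hset : ∀ s : Set Ω, R.Inv s → ∫ ω in s, p ω ∂m = m.real (A ∩ s) := by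
    intro s hs
    have h1 := setIntegral_condExp (m := R.mB) (μ := m) R.mB_le ((bmInd hA).integrable m)
      (s := s) hs
    have h2 : ∫ ω in s, p ω ∂m = ∫ ω in s, (m[A.indicator 1|R.mB]) ω ∂m :=
      integral_congr_ae (ae_restrict_of_ae hap)
    rw [h2, h1, integral_indicator_one hA, measureReal_restrict_apply hA]
  have hQ : R.Inv (Nᶜ ∩ p ⁻¹' {1}) := hN.compl.inter (hpm (measurableSet_singleton 1))
  have hQ0 : R.Inv (Nᶜ ∩ p ⁻¹' {0}) := hN.compl.inter (hpm (measurableSet_singleton 0))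
  set Q := Nᶜ ∩ p ⁻¹' {1} with hQd
  set Q0 := Nᶜ ∩ p ⁻¹' {0} with hQ0d
  have h1 : m.real Q = m.real (A ∩ Q) := by
    rw [← hset Q hQ]
    have : ∫ ω in Q, p ω ∂m = ∫ ω in Q, (1 : ℝ) ∂m :=
      setIntegral_congr_fun hQ.1 fun ω hω => hω.2
    rw [this]
    simp
  have h2 : m (Q \ A) = 0 := by
    have h3 : m.real Q = m.real (A ∩ Q) + m.real (Q \ A) := by
      rw [Set.inter_comm, measureReal_inter_add_sdiff hA]
    rw [← h1] at h3
    exact (measureReal_eq_zero_iff (measure_ne_top m _)).1 (by linarith)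
  have h3 : m (A ∩ Q0) = 0 := by
    have h4 : m.real (A ∩ Q0) = 0 := by
      rw [← hset Q0 hQ0]
      have : ∫ ω in Q0, p ω ∂m = ∫ ω in Q0, (0 : ℝ) ∂m :=
        setIntegral_congr_fun hQ0.1 fun ω hω => hω.2
      rw [this]
      simp
    exact (measureReal_eq_zero_iff (measure_ne_top m _)).1 h4
  have h4 : m (A \ Q) = 0 := by
    have h5 : m {ω | ¬(ω ∉ N → p ω - p ω * p ω = 0)} = 0 := h01
    refine measure_mono_null ?_ (measure_union_null h3 h5)
    intro ω hω
    by_cases h6 : p ω - p ω * p ω = 0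
    · left
      refine ⟨hω.1, hAN hω.1, ?_⟩
      have h7 : p ω * (1 - p ω) = 0 := by linarith
      rcases mul_eq_zero.1 h7 with h8 | h8
      · exact h8
      · exact absurd (show ω ∈ Q from ⟨hAN hω.1, by
          rw [Set.mem_preimage, Set.mem_singleton_iff]; linarith⟩) hω.2
    · right
      intro h7
      exact h6 (h7 (hAN hω.1))
  refine ⟨hA, fun D hD f => ?_⟩
  rw [h.P_congr hA hQ.1 h4 h2, h.P_congr hA hQ.1 h4 h2, hQ.2 D hD]

/-- **(6)** the unit is cyclic for the skew operators -/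
theorem Pack.cyclic [CompleteSpace E] [TopologicalSpace.SeparableSpace E] {x : E}
    {χ : E →L[ℝ] ℝ} {m : Measure Ω} (h : R.Pack x χ m)
    (hne : ∀ y : E, y ≠ 0 → ∃ D : E →L[ℝ] E, Skew D ∧ D y ≠ 0) (V : Submodule ℝ E)
    (hV : IsClosed (V : Set E)) (hVD : ∀ D : E →L[ℝ] E, Skew D → ∀ v ∈ V, D v ∈ V)
    (hx : x ∈ V) (f : E) : f ∈ V := by
  classical
  have _ := h.fin
  set F : Set (Set Ω) := {S | R.Inv S ∧ ∀ k : Ω → ℝ, BM k → Measurable[R.mB] k →
    R.M (S.indicator k) x ∈ V} with hF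
  have hempty : ∅ ∈ F := by
    refine ⟨Inv.empty, fun k _ _ => ?_⟩
    rw [Set.indicator_empty', M_zero]
    exact V.zero_mem
  have hunion : ∀ S T, S ∈ F → T ∈ F → S ∪ T ∈ F := by
    intro S T hS hT
    refine ⟨hS.1.union hT.1, fun k hk hkm => ?_⟩
    obtain ⟨h1, h2⟩ := BM.inv_ind hk hkm hS.1.compl
    have e : (S ∪ T).indicator k = S.indicator k + T.indicator (Sᶜ.indicator k) := by
      ext ω
      by_cases h3 : ω ∈ S <;> by_cases h4 : ω ∈ T <;> simp [h3, h4]
    rw [e, R.add (hk.indicator hS.1.1) (h1.indicator hT.1.1)]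
    exact V.add_mem (hS.2 k hk hkm) (hT.2 _ h1 h2)
  obtain ⟨N, ⟨hNi, hNV⟩, hmax⟩ := exhaust R x F hempty (fun S hS => hS.1.1) (by
    intro S hS
    refine ⟨Inv.iUnion fun n => (hS n).1, fun k hk hkm => ?_⟩
    have h1 : ∀ n, (⋃ i ∈ Finset.range n, S i) ∈ F := by
      intro n
      induction n with
      | zero => simpa using hempty
      | succ n ih =>
        rw [Finset.range_add_one, Finset.set_biUnion_insert]
        exact hunion _ _ (hS n) ih
    have hmono : Monotone (fun n : ℕ => ⋃ i ∈ Finset.range n, S i) := by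
      intro i j hij
      exact Set.biUnion_subset_biUnion_left (fun x hx => Finset.mem_coe.mpr
        (Finset.mem_range.mpr ((Finset.mem_range.mp (Finset.mem_coe.mp hx)).trans_le hij)))
    have hU : (⋃ n : ℕ, ⋃ i ∈ Finset.range n, S i) = ⋃ n, S n := by
      ext ω
      simp only [Set.mem_iUnion, Finset.mem_range]
      constructor
      · rintro ⟨n, i, -, h⟩; exact ⟨i, h⟩
      · rintro ⟨i, h⟩; exact ⟨i + 1, i, Nat.lt_succ_self i, h⟩
    have hUm : MeasurableSet (⋃ n, S n) := MeasurableSet.iUnion fun n => (hS n).1.1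
    have h2 := R.tendsto_mono _ (fun n => (h1 n).1.1) hmono hUm hU (R.M k x)
    rw [← R.M_mul_ind hUm hk]
    refine hV.mem_of_tendsto h2 (Eventually.of_forall fun n => ?_)
    rw [R.M_mul_ind (h1 n).1.1 hk]
    exact (h1 n).2 k hk hkm)
  -- off N every measurable set is invariant
  have hall : ∀ A, MeasurableSet A → A ⊆ Nᶜ → R.Inv A := by
    intro A hA hAN
    obtain ⟨p, hp, hpm, hap⟩ := h.exists_ce (bmInd hA)
    set q : Ω → ℝ := p - p * p with hq
    have hqb : BM q := hp.sub (hp.mul hp)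
    have hqm : Measurable[R.mB] q := hpm.sub (hpm.mul hpm)
    have hT : ∀ k : ℕ, MeasurableSet {y : ℝ | 1 / ((k : ℝ) + 1) ≤ ‖y‖} :=
      fun k => measurableSet_le measurable_const measurable_norm
    have hSI : ∀ k : ℕ, R.Inv (q ⁻¹' {y : ℝ | 1 / ((k : ℝ) + 1) ≤ ‖y‖}) := fun k => hqm (hT k)
    have hSF : ∀ k : ℕ, (q ⁻¹' {y : ℝ | 1 / ((k : ℝ) + 1) ≤ ‖y‖}) ∈ F := by
      intro k
      refine ⟨hSI k, fun r hr hrm => ?_⟩
      set S := q ⁻¹' {y : ℝ | 1 / ((k : ℝ) + 1) ≤ ‖y‖} with hS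
      have h1 : BM (S.indicator (fun ω => r ω / q ω)) := by
        obtain ⟨hr1, C, hC⟩ := hr
        refine bm_of_bdd (hr1.div hqb.1) (hSI k).1 ⟨C * ((k : ℝ) + 1), fun ω hω => ?_⟩
        have hω' : 1 / ((k : ℝ) + 1) ≤ ‖q ω‖ := hω
        have hk : (0 : ℝ) < 1 / ((k : ℝ) + 1) := by positivity
        have hC0 : 0 ≤ C := (norm_nonneg _).trans (hC ω)
        rw [Pi.div_apply, norm_div, div_le_iff₀ (hk.trans_le hω')]
        calc ‖r ω‖ ≤ C := hC ω
          _ = C * ((k : ℝ) + 1) * (1 / ((k : ℝ) + 1)) := by field_simp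
          _ ≤ C * ((k : ℝ) + 1) * ‖q ω‖ := by
            exact mul_le_mul_of_nonneg_left hω' (by positivity)
      have h2 : Measurable[R.mB] (S.indicator (fun ω => r ω / q ω)) :=
        Measurable.indicator (hrm.div hqm) (hSI k)
      have h3 := h.mem_cov hVD hx hA hp hpm hap h1 h2
      have e : S.indicator (fun ω => r ω / q ω) * (p - p * p) = S.indicator r := by
        ext ω
        by_cases hω : ω ∈ S
        · have hω' : 1 / ((k : ℝ) + 1) ≤ ‖q ω‖ := hω
          have hk : (0 : ℝ) < 1 / ((k : ℝ) + 1) := by positivity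
          have h4 : q ω ≠ 0 := norm_pos_iff.1 (hk.trans_le hω')
          rw [Pi.mul_apply, Set.indicator_of_mem hω, Set.indicator_of_mem hω, ← hq]
          exact div_mul_cancel₀ _ h4
        · rw [Pi.mul_apply, Set.indicator_of_notMem hω, Set.indicator_of_notMem hω, zero_mul]
      rwa [e] at h3
    have hnull : ∀ k : ℕ, m ((q ⁻¹' {y : ℝ | 1 / ((k : ℝ) + 1) ≤ ‖y‖}) \ N) = 0 := by
      intro k
      have h1 := hmax _ (hSF k)
      have h2 := h.real _ ((hSI k).1.diff hNi.1)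
      rw [h1, map_zero] at h2
      exact (measureReal_eq_zero_iff (measure_ne_top m _)).1 h2
    refine h.inv_of_ce hNi hA hAN hp hpm hap ?_
    have h1 := measure_iUnion_null hnull
    rw [ae_iff]
    refine measure_mono_null ?_ h1
    intro ω hω
    rw [Set.mem_ofPred_eq, Classical.not_imp] at hω
    obtain ⟨k, hk⟩ := exists_nat_one_div_lt (norm_pos_iff.2 hω.2)
    exact Set.mem_iUnion.2 ⟨k, hk.le, hω.1⟩
  have hC0 : R.P Nᶜ x = 0 := h.null_of_all_inv hne hall hNi.compl.1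
  -- all bounded multiples of x
  have hM : ∀ a : Ω → ℝ, BM a → R.M a x ∈ V := by
    intro a ha
    obtain ⟨g, hg, hgm, hag⟩ := h.exists_ce ha
    have h1 := h.mem_dev hVD hx ha hg hag
    have h2 := hNV g hg hgm
    have h3 : R.M g x = R.M (N.indicator g) x := by
      have h4 := R.P_compl hNi.1 (R.M g x)
      rw [R.M_mul_ind hNi.1 hg, ← R.M_comm_P hNi.compl.1 hg, hC0, map_zero, add_zero] at h4
      exact h4.symm
    have h4 : R.M a x = R.M (a - g) x + R.M g x := by
      rw [M_sub ha hg]; abel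
    rw [h4, h3]
    exact V.add_mem h1 h2
  obtain ⟨g, hg, -, h2⟩ := h.unit.approx f
  exact hV.mem_of_tendsto h2 (Eventually.of_forall fun n => hM _ (bm_sub hg n))

end Act
end Pool.Agent.Helper60.RR
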