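import Pool.Agent.Helper60.RR.Core

set_option autoImplicit false
set_option linter.unusedSectionVars false

open MeasureTheory Filter Topology
open scoped ENNReal

namespace Pool.Agent.Helper60.RR
namespace Act

variable {Ω : Type*} [MeasurableSpace Ω] {E : Type*} [NormedAddCommGroup E] [NormedSpace ℝ E]
variable {R : Act Ω E}

variable (R) in
lemma norm_P_mono {A B : Set Ω} (hA : MeasurableSet A) (hB : MeasurableSet B) (h : A ⊆ B) (f : E) :
    ‖R.P A f‖ ≤ ‖R.P B f‖ := by
  have : R.P A f = R.P A (R.P B f) := by rw [R.P_P hA hB, Set.inter_eq_left.2 h]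
  rw [this]; exact R.norm_P_le hA _

variable (R) in
lemma P_mono_zero {A B : Set Ω} (hA : MeasurableSet A) (hB : MeasurableSet B) (h : A ⊆ B) {f : E}
    (h0 : R.P B f = 0) : R.P A f = 0 := by
  have := R.norm_P_mono hA hB h f
  rw [h0, norm_zero] at this
  exact norm_le_zero_iff.1 this

variable (R) in
/-- a countable union of sets on which `f` vanishes -/
lemma P_iUnion_zero {A : ℕ → Set Ω} (hA : ∀ n, MeasurableSet (A n)) {f : E}
    (h : ∀ n, R.P (A n) f = 0) : R.P (⋃ n, A n) f = 0 := by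
  have hm : ∀ n, MeasurableSet (⋃ i ∈ Finset.range n, A i) :=
    fun n => Finset.measurableSet_biUnion _ fun i _ => hA i
  have h1 : ∀ n, R.P (⋃ i ∈ Finset.range n, A i) f = 0 := by
    intro n
    induction n with
    | zero => simp [R.P_empty]
    | succ n ih =>
      have e : (⋃ i ∈ Finset.range (n + 1), A i)
          = (⋃ i ∈ Finset.range n, A i) ∪ (A n \ ⋃ i ∈ Finset.range n, A i) := by
        rw [Finset.range_add_one, Finset.set_biUnion_insert, Set.union_sdiff_self, Set.union_comm]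
      rw [e, R.P_union (hm n) ((hA n).diff (hm n)) Set.disjoint_sdiff_right, ih, zero_add]
      exact R.P_mono_zero ((hA n).diff (hm n)) (hA n) Set.sdiff_subset (h n)
  have h2 := R.tendsto_mono (fun n => ⋃ i ∈ Finset.range n, A i) hm (by
    intro i j hij
    exact Set.biUnion_subset_biUnion_left (fun x hx => Finset.mem_coe.mpr
      (Finset.mem_range.mpr ((Finset.mem_range.mp (Finset.mem_coe.mp hx)).trans_le hij))))
    (MeasurableSet.iUnion hA) (by
      ext ω
      simp only [Set.mem_iUnion, Finset.mem_range]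
      constructor
      · rintro ⟨n, i, -, h⟩; exact ⟨i, h⟩
      · rintro ⟨i, h⟩; exact ⟨i + 1, i, Nat.lt_succ_self i, h⟩) f
  refine tendsto_nhds_unique h2 ?_
  simp_rw [h1]
  exact tendsto_const_nhds

/-- **C3, exhaustion.** In a separable space a family of measurable sets which is closed under countable
unions has a largest member, up to null sets. -/
theorem exhaust [TopologicalSpace.SeparableSpace E] (R : Act Ω E) (x : E) (F : Set (Set Ω))
    (h0 : ∅ ∈ F) (hF : ∀ S ∈ F, MeasurableSet S)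
    (hU : ∀ S : ℕ → Set Ω, (∀ n, S n ∈ F) → (⋃ n, S n) ∈ F) :
    ∃ N ∈ F, ∀ S ∈ F, R.P (S \ N) x = 0 := by
  classical
  have hne : F.Nonempty := ⟨_, h0⟩
  have : SecondCountableTopology E := UniformSpace.secondCountable_of_separable E
  obtain ⟨S₀, hS₀⟩ := hne
  let T : Set E := (fun S => R.P S x) '' F
  have : Nonempty T := ⟨⟨R.P S₀ x, S₀, hS₀, rfl⟩⟩
  obtain ⟨u, hu⟩ := TopologicalSpace.exists_dense_seq T
  choose S hS hSu using fun n => (u n).2
  refine ⟨⋃ n, S n, hU S hS, fun A hA => ?_⟩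
  by_contra hne
  have hpos := norm_pos_iff.2 hne
  obtain ⟨n, hn⟩ := hu.exists_dist_lt ⟨R.P A x, A, hA, rfl⟩ hpos
  have hN : MeasurableSet (⋃ n, S n) := MeasurableSet.iUnion fun n => hF _ (hS n)
  have hd : MeasurableSet (A \ ⋃ n, S n) := (hF A hA).diff hN
  have h1 : R.P (A \ ⋃ n, S n) x = R.P (A \ ⋃ n, S n) (R.P A x - R.P (S n) x) := by
    rw [map_sub, R.P_P hd (hF A hA), R.P_disj hd (hF _ (hS n)), sub_zero,
      Set.inter_eq_left.2 Set.sdiff_subset]
    exact Set.disjoint_left.2 fun ω h1 h2 => h1.2 (Set.mem_iUnion.2 ⟨n, h2⟩)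
  have h2 : dist (R.P A x) (R.P (S n) x) < ‖R.P (A \ ⋃ n, S n) x‖ := by
    have h3 := hn
    rw [Subtype.dist_eq, ← hSu n] at h3
    exact h3
  rw [dist_eq_norm] at h2
  have h4 := R.norm_P_le hd (R.P A x - R.P (S n) x)
  rw [← h1] at h4
  exact absurd h4 (not_le.2 h2)

/-! ### C4: the reference functional -/

lemma Ref.mono {x : E} {χ : E →L[ℝ] ℝ} (h : R.Ref x χ) {A B : Set Ω} (hA : MeasurableSet A)
    (hB : MeasurableSet B) (hAB : A ⊆ B) (h0 : χ (R.P B x) = 0) : χ (R.P A x) = 0 := by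
  have e : R.P B x = R.P A x + R.P (B \ A) x := by
    rw [← R.P_union hA (hB.diff hA) Set.disjoint_sdiff_right, Set.union_sdiff_cancel hAB]
  have h1 := h.pos A hA
  have h2 := h.pos (B \ A) (hB.diff hA)
  rw [e, map_add] at h0
  linarith

/-- reference functional seeing an invariant set -/
lemma exists_ref_on {x : E} {G : Set Ω} (hG : R.Inv G) :
    ∃ χ : E →L[ℝ] ℝ, R.Ref x χ ∧ χ (R.P G x) = ‖R.P G x‖ := by
  obtain ⟨ψ, hψ⟩ := exists_norming (R.P G x)
  refine ⟨ψ.comp (R.P G), ⟨fun A hA => ?_, ?_⟩, ?_⟩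
  · change 0 ≤ ψ (R.P G (R.P A x))
    rw [R.P_P hG.1 hA, Set.inter_comm, ← R.P_P hA hG.1]
    exact R.psi_P_nonneg hψ hA
  · intro D hD A B hA hB hAB a b ha hb
    have e : ∀ a b : Ω → ℝ, BM a → BM b →
        (ψ.comp (R.P G)) (R.M a (D (R.M b x))) = ψ (R.M a (D (R.M b (R.P G x)))) := by
      intro a b ha hb
      change ψ (R.P G (R.M a (D (R.M b x)))) = _
      rw [← R.M_comm_P hG.1 ha, hG.2 D hD, ← R.M_comm_P hG.1 hb]
    rw [e _ _ (ha.indicator hA) (hb.indicator hB), e _ _ (hb.indicator hB) (ha.indicator hA)]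
    exact anti hD hψ hA hB hAB ha hb
  · change ψ (R.P G (R.P G x)) = _
    rw [R.P_P hG.1 hG.1, Set.inter_self]
    exact hψ.2

/-- a positive functional which is faithful on `C` detects vectors on `C` -/
lemma zero_of_chi {x : E} (hx : R.IsUnit x) {χ : E →L[ℝ] ℝ} (hχ : R.Ref x χ) {C : Set Ω}
    (hC : MeasurableSet C)
    (hf : ∀ A, MeasurableSet A → A ⊆ C → χ (R.P A x) = 0 → R.P A x = 0) {g : E}
    (h : ∀ a : Ω → ℝ, BM a → χ (R.M (C.indicator a) g) = 0) : R.P C g = 0 := by
  obtain ⟨m, hfin, hreal, hint⟩ := R.exists_measure (f := x) (ψ := χ) hχ.pos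
  obtain ⟨γ, hγ, hγ1⟩ := hx g
  set A : ℕ → Set Ω := fun n => C ∩ {ω | ‖γ ω‖ ≤ n} with hA
  have hAm : ∀ n, MeasurableSet (A n) := fun n => hC.inter (sub_meas hγ n)
  have hAC : ∀ n, A n ⊆ C := fun n => Set.inter_subset_left
  have hbd : ∀ n, ∃ K : ℝ, ∀ ω ∈ A n, ‖γ ω‖ ≤ K := fun n => ⟨n, fun ω h => h.2⟩
  have key : ∀ n, R.P (A n) g = 0 := by
    intro n
    have hγb : BM ((A n).indicator γ) := bm_of_bdd hγ (hAm n) (hbd n)
    -- the sign of γ
    set s : Ω → ℝ := fun ω => if 0 ≤ γ ω then 1 else -1 with hs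
    have hsb : BM s := by
      refine ⟨Measurable.ite (measurableSet_le measurable_const hγ) measurable_const
        measurable_const, 1, fun ω => ?_⟩
      by_cases h : 0 ≤ γ ω <;> simp [hs, h]
    have hsb' : BM ((A n).indicator s) := hsb.indicator (hAm n)
    have h1 := h ((A n).indicator s) hsb'
    have e1 : C.indicator ((A n).indicator s) = (A n).indicator s := by
      rw [Set.indicator_indicator, Set.inter_eq_right.2 (hAC n)]
    have e2 : R.M ((A n).indicator s) g = R.M ((A n).indicator (fun ω => |γ ω|)) x := by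
      have e3 : R.M ((A n).indicator s) (R.P (A n) g) = R.M ((A n).indicator s) g := by
        rw [R.M_mul_ind' (hAm n) hsb', Set.indicator_indicator, Set.inter_self]
      rw [← e3, hγ1 _ (hAm n) (hbd n), ← R.mul hsb' hγb]
      congr 2
      ext ω
      by_cases hω : ω ∈ A n
      · by_cases h0 : 0 ≤ γ ω
        · simp [hω, hs, h0, abs_of_nonneg h0]
        · simp [hω, hs, h0, abs_of_neg (not_le.1 h0)]
      · simp [hω]
    have hab : BM ((A n).indicator (fun ω => |γ ω|)) :=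
      ⟨(hγ.abs).indicator (hAm n), n, fun ω => by
        by_cases hω : ω ∈ A n
        · simpa [hω] using hω.2
        · simp [hω]⟩
    rw [e1, e2, hint _ hab] at h1
    have hnn : 0 ≤ (A n).indicator (fun ω => |γ ω|) := by
      intro ω
      exact Set.indicator_nonneg (fun _ _ => abs_nonneg _) ω
    have hi : Integrable ((A n).indicator (fun ω => |γ ω|)) m := by
      obtain ⟨h3, K, hK⟩ := hab
      exact Integrable.of_bound h3.aestronglyMeasurable K (Eventually.of_forall hK)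
    have h2 := (integral_eq_zero_iff_of_nonneg hnn hi).1 h1
    set Z : Set Ω := A n ∩ {ω | γ ω ≠ 0} with hZ
    have hZm : MeasurableSet Z := (hAm n).inter (hγ (measurableSet_singleton (0 : ℝ)).compl)
    have h3 : m Z = 0 := by
      rw [Filter.EventuallyEq, ae_iff] at h2
      refine measure_mono_null ?_ h2
      intro ω hω
      simp only [Set.mem_ofPred_eq, Pi.zero_apply]
      rw [Set.indicator_of_mem hω.1]
      exact fun h => hω.2 (abs_eq_zero.1 h)
    have h4 : χ (R.P Z x) = 0 := by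
      rw [← hreal Z hZm, Measure.real, h3, ENNReal.toReal_zero]
    have h5 := hf Z hZm (Set.inter_subset_left.trans (hAC n)) h4
    have e4 : (A n).indicator γ = Z.indicator ((A n).indicator γ) := by
      ext ω
      by_cases hω : ω ∈ A n
      · by_cases h0 : γ ω = 0
        · simp [hω, h0, hZ]
        · have : ω ∈ Z := ⟨hω, h0⟩
          simp [hω, this]
      · have : ω ∉ Z := fun h => hω h.1
        simp [hω, this]
    rw [hγ1 _ (hAm n) (hbd n), e4, ← R.M_mul_ind' hZm hγb, h5, map_zero]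
  have hU : (⋃ n, A n) = C := by
    ext ω
    simp only [hA, Set.mem_iUnion, Set.mem_inter_iff, Set.mem_ofPred_eq]
    constructor
    · rintro ⟨n, h, -⟩; exact h
    · intro h
      obtain ⟨n, hn⟩ := exists_nat_ge ‖γ ω‖
      exact ⟨n, h, hn⟩
  have := P_iUnion_zero R hAm key
  rwa [hU] at this

/-- the null set of a positive antisymmetric functional is invariant -/
lemma Ref.null [TopologicalSpace.SeparableSpace E] {x : E} (hx : R.IsUnit x) {χ : E →L[ℝ] ℝ}
    (hχ : R.Ref x χ) : ∃ N, R.Inv N ∧ χ (R.P N x) = 0 ∧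
      ∀ A, MeasurableSet A → A ⊆ Nᶜ → χ (R.P A x) = 0 → R.P A x = 0 := by
  obtain ⟨m, hfin, hreal, hint⟩ := R.exists_measure (f := x) (ψ := χ) hχ.pos
  have hm0 : ∀ A, MeasurableSet A → (χ (R.P A x) = 0 ↔ m A = 0) := by
    intro A hA
    rw [← hreal A hA]
    exact measureReal_eq_zero_iff
  obtain ⟨N, hN, hmax⟩ := exhaust R x {S | MeasurableSet S ∧ χ (R.P S x) = 0}
    ⟨MeasurableSet.empty, by rw [R.P_empty, map_zero]⟩ (fun S hS => hS.1) (by
      intro S hS
      refine ⟨MeasurableSet.iUnion fun n => (hS n).1, ?_⟩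
      rw [hm0 _ (MeasurableSet.iUnion fun n => (hS n).1)]
      exact measure_iUnion_null fun n => (hm0 _ (hS n).1).1 (hS n).2)
  have hfa : ∀ A, MeasurableSet A → A ⊆ Nᶜ → χ (R.P A x) = 0 → R.P A x = 0 := by
    intro A hA hAN h0
    have h1 := hmax A ⟨hA, h0⟩
    have h2 : A \ N = A := by
      ext ω; exact ⟨fun h => h.1, fun h => ⟨h, hAN h⟩⟩
    rwa [h2] at h1
  have hmN : m N = 0 := (hm0 N hN.1).1 hN.2
  refine ⟨N, ⟨hN.1, fun D hD f => ?_⟩, hN.2, hfa⟩
  refine hD.comm_P hN.1 ?_ f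
  refine hx.ext (S := fun f => R.P Nᶜ (D (R.P N f))) (T := fun _ => (0 : E))
    ((R.P Nᶜ).continuous.comp (D.continuous.comp (R.P N).continuous)) continuous_const ?_
  intro b hb
  refine zero_of_chi hx hχ hN.1.compl hfa fun a ha => ?_
  rw [R.M_mul_ind hN.1 hb]
  have h1 := hχ.anti D hD Nᶜ N hN.1.compl hN.1 disjoint_compl_left a b ha hb
  have h2 : ∀ g, χ (R.M (N.indicator b) g) = 0 := by
    refine hx.ext (S := fun g => χ (R.M (N.indicator b) g)) (T := fun _ => (0 : ℝ))
      (χ.continuous.comp (R.M (N.indicator b)).continuous) continuous_const ?_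
    intro c hc
    have hbN : BM (N.indicator b) := hb.indicator hN.1
    change χ (R.M (N.indicator b) (R.M c x)) = 0
    rw [← R.mul hbN hc, hint _ (hbN.mul hc)]
    have h3 : (N.indicator b * c) =ᵐ[m] 0 := by
      have h4 : ∀ᵐ ω ∂m, ω ∉ N := by rw [ae_iff]; simpa using hmN
      filter_upwards [h4] with ω hω
      simp [hω]
    rw [integral_congr_ae h3]
    simp
  rw [h2, add_zero] at h1
  exact h1

/-- **C4.** Existence of the reference functional and its measure. -/
theorem exists_pack [TopologicalSpace.SeparableSpace E] {x : E} (hx : R.IsUnit x) :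
    ∃ (χ : E →L[ℝ] ℝ) (m : Measure Ω), R.Pack x χ m := by
  classical
  set F : Set (Set Ω) := {S | R.Inv S ∧ ∃ χ : E →L[ℝ] ℝ, R.Ref x χ ∧
    ∀ A, MeasurableSet A → A ⊆ S → χ (R.P A x) = 0 → R.P A x = 0} with hF
  obtain ⟨N, ⟨hNi, χ, hχ, hχf⟩, hmax⟩ := exhaust R x F
    ⟨Inv.empty, 0, ⟨fun A _ => by simp, fun D _ A B _ _ _ a b _ _ => by simp⟩, fun A _ hA _ => by
      rw [Set.subset_empty_iff.1 hA, R.P_empty]⟩ (fun S hS => hS.1.1) (by
    intro S hS
    choose hI χ hχ hf using hS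
    refine ⟨Inv.iUnion hI, ?_⟩
    set c : ℕ → ℝ := fun n => (1 / 2 : ℝ) ^ n / (1 + ‖χ n‖) with hc
    have hc0 : ∀ n, 0 < c n := fun n => by positivity
    have hsum : Summable fun n => c n • χ n := by
      refine Summable.of_norm_bounded summable_geometric_two fun n => ?_
      rw [norm_smul, Real.norm_eq_abs, abs_of_pos (hc0 n), hc, div_mul_eq_mul_div,
        div_le_iff₀ (by positivity)]
      have h1 : (0 : ℝ) ≤ (1 / 2 : ℝ) ^ n := by positivity
      nlinarith [norm_nonneg (χ n)]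
    have hH : ∀ g, HasSum (fun n => c n * χ n g) ((∑' n, c n • χ n) g) := by
      intro g
      have := (ContinuousLinearMap.apply ℝ ℝ g).hasSum hsum.hasSum
      simpa using this
    refine ⟨∑' n, c n • χ n, ⟨fun A hA => ?_, fun D hD A B hA hB hAB a b ha hb => ?_⟩, ?_⟩
    · rw [← (hH (R.P A x)).tsum_eq]
      exact tsum_nonneg fun n => mul_nonneg (hc0 n).le ((hχ n).pos A hA)
    · have h1 := (hH (R.M (A.indicator a) (D (R.M (B.indicator b) x)))).add
        (hH (R.M (B.indicator b) (D (R.M (A.indicator a) x))))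
      refine h1.unique ?_
      have h2 : (fun n => c n * χ n (R.M (A.indicator a) (D (R.M (B.indicator b) x)))
          + c n * χ n (R.M (B.indicator b) (D (R.M (A.indicator a) x)))) = fun _ => (0 : ℝ) := by
        ext n
        rw [← mul_add, (hχ n).anti D hD A B hA hB hAB a b ha hb, mul_zero]
      rw [h2]
      exact hasSum_zero
    · intro A hA hAS h0
      have h1 := hH (R.P A x)
      rw [h0] at h1
      have h2 := (hasSum_zero_iff_of_nonneg (fun n => mul_nonneg (hc0 n).le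
        ((hχ n).pos A hA))).1 h1
      have h3 : ∀ n, R.P (A ∩ S n) x = 0 := by
        intro n
        have h4 : c n * χ n (R.P A x) = 0 := congrFun h2 n
        have h5 : χ n (R.P A x) = 0 := (mul_eq_zero.1 h4).resolve_left (hc0 n).ne'
        exact hf n _ (hA.inter (hI n).1) Set.inter_subset_right
          ((hχ n).mono (hA.inter (hI n).1) hA Set.inter_subset_left h5)
      have h6 := P_iUnion_zero R (fun n => hA.inter (hI n).1) h3
      rwa [← Set.inter_iUnion, Set.inter_eq_left.2 hAS] at h6)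
  have hc : R.P Nᶜ x = 0 := by
    by_contra hne
    obtain ⟨χG, hG, hG1⟩ := exists_ref_on (R := R) (x := x) hNi.compl
    obtain ⟨M, hMi, hM0, hMf⟩ := hG.null hx
    have hSi : R.Inv (Nᶜ ∩ Mᶜ) := hNi.compl.inter hMi.compl
    have h1 : R.P (Nᶜ ∩ Mᶜ) x = 0 := by
      have h2 := hmax (Nᶜ ∩ Mᶜ) ⟨hSi, χG, hG, fun A hA hAS h0 =>
        hMf A hA (hAS.trans Set.inter_subset_right) h0⟩
      have h3 : (Nᶜ ∩ Mᶜ) \ N = Nᶜ ∩ Mᶜ := by
        ext ω; exact ⟨fun h => h.1, fun h => ⟨h, h.1⟩⟩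
      rwa [h3] at h2
    have h4 : χG (R.P (Nᶜ ∩ M) x) = 0 :=
      hG.mono (hNi.compl.1.inter hMi.1) hMi.1 Set.inter_subset_right hM0
    have e : Nᶜ = (Nᶜ ∩ Mᶜ) ∪ (Nᶜ ∩ M) := by
      rw [← Set.inter_union_distrib_left, Set.compl_union_self, Set.inter_univ]
    have h5 : R.P Nᶜ x = R.P (Nᶜ ∩ Mᶜ) x + R.P (Nᶜ ∩ M) x := by
      conv_lhs => rw [e]
      rw [R.P_union hSi.1 (hNi.compl.1.inter hMi.1)]
      exact Set.disjoint_left.2 fun ω h1 h2 => h1.2 h2.2
    have h6 : χG (R.P Nᶜ x) = 0 := by rw [h5, map_add, h1, h4, map_zero, add_zero]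
    rw [hG1] at h6
    exact hne (norm_eq_zero.1 h6)
  obtain ⟨m, hfin, hreal, hint⟩ := R.exists_measure (f := x) (ψ := χ) hχ.pos
  refine ⟨χ, m, hx, hχ, hfin, hreal, hint, fun C hC h0 => ?_⟩
  have h1 : χ (R.P C x) = 0 := by rw [← hreal C hC, Measure.real, h0, ENNReal.toReal_zero]
  have h2 := hχf (C ∩ N) (hC.inter hNi.1) Set.inter_subset_right
    (hχ.mono (hC.inter hNi.1) hC Set.inter_subset_left h1)
  have h3 : R.P (C ∩ Nᶜ) x = 0 :=
    R.P_mono_zero (hC.inter hNi.compl.1) hNi.compl.1 Set.inter_subset_right hc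
  have e : C = (C ∩ N) ∪ (C ∩ Nᶜ) := by
    rw [← Set.inter_union_distrib_left, Set.union_compl_self, Set.inter_univ]
  rw [e, R.P_union (hC.inter hNi.1) (hC.inter hNi.compl.1), h2, h3, add_zero]
  exact Set.disjoint_left.2 fun ω h1 h2 => h2.2 h1.2

end Act
end Pool.Agent.Helper60.RR
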