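import Pool.Agent.Helper60.RR.VDef

set_option autoImplicit false
set_option linter.unusedSectionVars false

open MeasureTheory Filter Topology

namespace Pool.Agent.Helper60.RR

universe u v w

variable {Ω : Type v} [MeasurableSpace Ω] {μ : Measure Ω} {H : Type w} [NormedAddCommGroup H]
  [InnerProductSpace ℝ H] {E : Type u} [NormedAddCommGroup E] [NormedSpace ℝ E]
  {j : E →ₗ[ℝ] (Ω →ₘ[μ] H)}

/-- elements of the same modulus have the same norm -/
lemma IsVectorFunctionSpace.norm_le_norm (hj : IsVectorFunctionSpace μ j) {f g : E}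
    (h : ∀ᵐ ω ∂μ, ‖j g ω‖ ≤ ‖j f ω‖) : ‖g‖ ≤ ‖f‖ := by
  obtain ⟨k, hk1, hk2⟩ := hj.solid f (j g) h
  rwa [hj.inj hk1] at hk2

/-- LEAF H0: `h ↦ |f| h` embeds `H` in `E` -/
theorem IsVectorFunctionSpace.separable (hj : IsVectorFunctionSpace μ j)
    [TopologicalSpace.SeparableSpace E] {f : E} (hf : f ≠ 0) :
    TopologicalSpace.SeparableSpace H := by
  have _ : SecondCountableTopology E := UniformSpace.secondCountable_of_separable E
  -- the vectors |f| c
  have hc : ∀ c : H, Continuous (fun y : H => ‖y‖ • c) := fun c => by fun_prop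
  have hex : ∀ c : H, ∃ k : E, j k = AEEqFun.comp (fun y : H => ‖y‖ • c) (hc c) (j f) := by
    intro c
    obtain ⟨k, hk, -⟩ := hj.solid (‖c‖ • f) (AEEqFun.comp (fun y : H => ‖y‖ • c) (hc c) (j f)) (by
      rw [map_smul]
      filter_upwards [AEEqFun.coeFn_comp (fun y : H => ‖y‖ • c) (hc c) (j f),
        AEEqFun.coeFn_smul ‖c‖ (j f)] with ω h1 h2
      rw [h1, h2, Function.comp_apply, Pi.smul_apply, norm_smul, norm_smul, norm_norm, norm_norm,
        mul_comm])
    exact ⟨k, hk⟩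
  choose Φ hΦ using hex
  have hval : ∀ c : H, ∀ᵐ ω ∂μ, j (Φ c) ω = ‖j f ω‖ • c := by
    intro c
    rw [hΦ c]
    exact AEEqFun.coeFn_comp (fun y : H => ‖y‖ • c) (hc c) (j f)
  -- the norm of a difference
  have hdist : ∀ c d : H, dist (Φ c) (Φ d) = ‖f‖ * dist c d := by
    intro c d
    rw [dist_eq_norm, dist_eq_norm]
    have h1 : ∀ᵐ ω ∂μ, ‖j (Φ c - Φ d) ω‖ = ‖j (‖c - d‖ • f) ω‖ := by
      rw [map_sub, map_smul]
      filter_upwards [hval c, hval d, AEEqFun.coeFn_sub (j (Φ c)) (j (Φ d)),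
        AEEqFun.coeFn_smul ‖c - d‖ (j f)] with ω g1 g2 g3 g4
      rw [g3, g4, Pi.sub_apply, g1, g2, Pi.smul_apply, ← smul_sub, norm_smul, norm_smul, norm_norm,
        norm_norm, mul_comm]
    have h2 : ‖Φ c - Φ d‖ = ‖‖c - d‖ • f‖ :=
      le_antisymm (hj.norm_le_norm (h1.mono fun ω h => h.le))
        (hj.norm_le_norm (h1.mono fun ω h => h.ge))
    rw [h2, norm_smul, norm_norm, mul_comm]
  have hf0 : 0 < ‖f‖ := norm_pos_iff.2 hf
  have hanti : AntilipschitzWith (‖f‖₊⁻¹) Φ := by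
    refine AntilipschitzWith.of_le_mul_dist fun c d => ?_
    rw [hdist]
    rw [NNReal.coe_inv, coe_nnnorm, ← mul_assoc, inv_mul_cancel₀ hf0.ne', one_mul]
  have hlip : LipschitzWith ‖f‖₊ Φ := by
    refine LipschitzWith.of_dist_le_mul fun c d => ?_
    rw [hdist, coe_nnnorm]
  have hind := (hanti.isUniformInducing hlip.uniformContinuous).isInducing
  have _ : SecondCountableTopology H := hind.secondCountableTopology
  infer_instance

end Pool.Agent.Helper60.RR
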