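import Pool.Agent.Helper60.RR.VDef
import Pool.Agent.Helper98.RR.Space

set_option autoImplicit false
set_option linter.unusedSectionVars false

open MeasureTheory Filter Topology

namespace Pool.Agent.Helper60.RR

universe u v w

/-- a Hilbert basis of a separable space is countable -/
lemma countable_of_hilbertBasis {H : Type w} [NormedAddCommGroup H] [InnerProductSpace ℝ H]
    [TopologicalSpace.SeparableSpace H] {ι : Type*} (b : HilbertBasis ι ℝ H) : Countable ι := by
  refine Pairwise.countable_of_isOpen_disjoint (s := fun i => Metric.ball (b i) (1 / 2)) ?_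
    (fun _ => Metric.isOpen_ball) (fun i => ⟨b i, Metric.mem_ball_self (by norm_num)⟩)
  intro i k hik
  refine Metric.ball_disjoint_ball ?_
  have h1 : ‖b i - b k‖ ^ 2 = 2 := by
    rw [norm_sub_sq_real, b.orthonormal.1 i, b.orthonormal.1 k, b.orthonormal.2 hik]
    norm_num
  rw [dist_eq_norm]
  nlinarith [norm_nonneg (b i - b k)]

section
variable {Ω : Type v} [MeasurableSpace Ω] (μ : Measure Ω) (ι : Type w)

/-- the measure on `ι × Ω` -/
noncomputable def sumMeas [MeasurableSpace ι] : Measure (ι × Ω) :=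
  Measure.sum fun i => μ.map (Prod.mk i)

variable [MeasurableSpace ι]

lemma ae_snd {p : Ω → Prop} (h : ∀ᵐ ω ∂μ, p ω) : ∀ᵐ q ∂(sumMeas μ ι), p q.2 := by
  have hq : Measure.QuasiMeasurePreserving (Prod.snd : ι × Ω → Ω) (sumMeas μ ι) μ := by
    refine ⟨measurable_snd, Measure.AbsolutelyContinuous.mk fun s hs h0 => ?_⟩
    rw [Measure.map_apply measurable_snd hs, sumMeas, Measure.sum_apply _ (measurable_snd hs)]
    simp only [ENNReal.tsum_eq_zero]
    intro i
    rw [Measure.map_apply measurable_prodMk_left (measurable_snd hs)]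
    exact h0
  exact hq.ae h

variable {μ ι}

lemma ae_mk {P : ι × Ω → Prop} (h : ∀ᵐ q ∂(sumMeas μ ι), P q) (i : ι) : ∀ᵐ ω ∂μ, P (i, ω) := by
  have h1 : ∀ᵐ q ∂(μ.map (Prod.mk i)), P q :=
    (Measure.absolutelyContinuous_of_le (Measure.le_sum (fun i => μ.map (Prod.mk i)) i)).ae_le h
  exact ae_of_ae_map measurable_prodMk_left.aemeasurable h1

end

variable {Ω : Type v} [MeasurableSpace Ω] {μ : Measure Ω} {H : Type w} [NormedAddCommGroup H]
  [InnerProductSpace ℝ H] {E : Type u} [NormedAddCommGroup E] [NormedSpace ℝ E]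
  {j : E →ₗ[ℝ] (Ω →ₘ[μ] H)}

/-- LEAF H1: coordinates in an orthonormal basis -/
theorem IsVectorFunctionSpace.exists_real (hj : IsVectorFunctionSpace μ j) [CompleteSpace H]
    [TopologicalSpace.SeparableSpace H] :
    ∃ (Ω' : Type (max v w)) (_ : MeasurableSpace Ω') (μ' : Measure Ω')
      (j' : E →ₗ[ℝ] (Ω' →ₘ[μ'] ℝ)), IsFunctionSpace μ' j' := by
  classical
  obtain ⟨W, b, hb⟩ := exists_hilbertBasis ℝ H
  have hcount : Countable W := countable_of_hilbertBasis b
  let _ : MeasurableSpace W := ⊤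
  have hsing : MeasurableSingletonClass W := ⟨fun _ => trivial⟩
  have hmeas : ∀ f : Ω →ₘ[μ] H, Measurable (fun q : W × Ω => inner ℝ (b q.1) (f q.2)) := by
    intro f
    refine measurable_from_prod_countable_right fun i => ?_
    exact ((innerSL ℝ (b i)).continuous.comp_stronglyMeasurable f.stronglyMeasurable).measurable
  let J : (Ω →ₘ[μ] H) → (W × Ω →ₘ[sumMeas μ W] ℝ) := fun f =>
    AEEqFun.mk (fun q : W × Ω => inner ℝ (b q.1) (f q.2)) (hmeas f).aestronglyMeasurable
  have hJ : ∀ f : Ω →ₘ[μ] H, ∀ᵐ q ∂(sumMeas μ W), J f q = inner ℝ (b q.1) (f q.2) := fun f =>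
    AEEqFun.coeFn_mk _ _
  have hJadd : ∀ f g : Ω →ₘ[μ] H, J (f + g) = J f + J g := by
    intro f g
    refine AEEqFun.ext ?_
    filter_upwards [hJ (f + g), hJ f, hJ g, AEEqFun.coeFn_add (J f) (J g),
      ae_snd μ W (AEEqFun.coeFn_add f g)] with q h1 h2 h3 h4 h5
    rw [h4, Pi.add_apply, h1, h2, h3, h5, Pi.add_apply, inner_add_right]
  have hJsmul : ∀ (c : ℝ) (f : Ω →ₘ[μ] H), J (c • f) = c • J f := by
    intro c f
    refine AEEqFun.ext ?_
    filter_upwards [hJ (c • f), hJ f, AEEqFun.coeFn_smul c (J f),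
      ae_snd μ W (AEEqFun.coeFn_smul c f)] with q h1 h2 h3 h4
    rw [h3, Pi.smul_apply, h1, h2, h4, Pi.smul_apply, inner_smul_right]
    rfl
  let j' : E →ₗ[ℝ] (W × Ω →ₘ[sumMeas μ W] ℝ) :=
    { toFun := fun f => J (j f)
      map_add' := fun f g => by rw [map_add, hJadd]
      map_smul' := fun c f => by rw [map_smul, hJsmul]; rfl }
  have hj' : ∀ f, ∀ᵐ q ∂(sumMeas μ W), j' f q = inner ℝ (b q.1) (j f q.2) := fun f => hJ (j f)
  refine ⟨W × Ω, inferInstance, sumMeas μ W, j', ?_, ?_⟩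
  · -- injectivity
    rw [injective_iff_map_eq_zero]
    intro f hf
    have h1 : ∀ᵐ q ∂(sumMeas μ W), inner ℝ (b q.1) (j f q.2) = 0 := by
      have h2 := hj' f
      rw [hf] at h2
      filter_upwards [h2, AEEqFun.coeFn_zero (μ := sumMeas μ W) (β := ℝ)] with q h3 h4
      rw [← h3, h4]; rfl
    have h2 : ∀ᵐ ω ∂μ, ∀ i : W, inner ℝ (b i) (j f ω) = 0 := ae_all_iff.2 fun i => ae_mk h1 i
    have h3 : j f = 0 := by
      refine AEEqFun.ext ?_
      filter_upwards [h2, AEEqFun.coeFn_zero (μ := μ) (β := H)] with ω h4 h5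
      rw [h5]
      have h6 : b.repr (j f ω) = 0 := by
        ext i
        rw [b.repr_apply_apply, h4 i]; rfl
      exact (map_eq_zero_iff _ b.repr.injective).1 h6
    exact hj.inj (by rw [h3, map_zero])
  · -- solidity
    intro f g hg
    have hgm : ∀ i : W, StronglyMeasurable (fun ω => g (i, ω)) := fun i =>
      (g.stronglyMeasurable.measurable.comp measurable_prodMk_left).stronglyMeasurable
    -- the good points
    have hgood : ∀ᵐ ω ∂μ, ∀ i : W, |g (i, ω)| ≤ |inner ℝ (b i) (j f ω)| := by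
      refine ae_all_iff.2 fun i => ae_mk (P := fun q => |g q| ≤ |inner ℝ (b q.1) (j f q.2)|) ?_ i
      filter_upwards [hg, hj' f] with q h1 h2
      rwa [h2] at h1
    have hmem : ∀ ω, (∀ i : W, |g (i, ω)| ≤ |inner ℝ (b i) (j f ω)|) →
        Memℓp (fun i : W => g (i, ω)) 2 := by
      intro ω h
      rw [memℓp_gen_iff (by norm_num)]
      have h1 := (memℓp_gen_iff (by norm_num)).1 (lp.memℓp (b.repr (j f ω)))
      refine Summable.of_nonneg_of_le (fun i => by positivity) (fun i => ?_) h1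
      refine Real.rpow_le_rpow (norm_nonneg _) ?_ (by norm_num)
      rw [b.repr_apply_apply, Real.norm_eq_abs, Real.norm_eq_abs]
      exact h i
    let G : Ω → H := fun ω => if h : ∀ i : W, |g (i, ω)| ≤ |inner ℝ (b i) (j f ω)| then
      b.repr.symm ⟨fun i : W => g (i, ω), hmem ω h⟩ else 0
    have hGsum : ∀ ω, (∀ i : W, |g (i, ω)| ≤ |inner ℝ (b i) (j f ω)|) →
        HasSum (fun i : W => g (i, ω) • b i) (G ω) := by
      intro ω h
      have h1 := b.hasSum_repr_symm ⟨fun i : W => g (i, ω), hmem ω h⟩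
      simp only [G, dif_pos h]
      exact h1
    have hGin : ∀ ω, (∀ i : W, |g (i, ω)| ≤ |inner ℝ (b i) (j f ω)|) →
        ∀ i, inner ℝ (b i) (G ω) = g (i, ω) := by
      intro ω h i
      simp only [G, dif_pos h]
      rw [← b.repr_apply_apply, LinearIsometryEquiv.apply_symm_apply]
    have hGle : ∀ ω, (∀ i : W, |g (i, ω)| ≤ |inner ℝ (b i) (j f ω)|) → ‖G ω‖ ≤ ‖j f ω‖ := by
      intro ω h
      have h1 := b.hasSum_inner_mul_inner (G ω) (G ω)
      have h2 := b.hasSum_inner_mul_inner (j f ω) (j f ω)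
      have h3 : inner ℝ (G ω) (G ω) ≤ inner ℝ (j f ω) (j f ω) := by
        refine hasSum_le (fun i => ?_) h1 h2
        rw [real_inner_comm, hGin ω h i, real_inner_comm (b i) (j f ω), ← sq, ← sq]
        exact sq_le_sq.2 (by simpa using h i)
      rw [real_inner_self_eq_norm_sq, real_inner_self_eq_norm_sq] at h3
      exact (sq_le_sq₀ (norm_nonneg _) (norm_nonneg _)).1 h3
    have hGm : AEStronglyMeasurable G μ := by
      refine aestronglyMeasurable_of_tendsto_ae (u := (atTop : Filter (Finset W)))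
        (f := fun s ω => ∑ i ∈ s, g (i, ω) • b i) (fun s => ?_) ?_
      · exact (Finset.stronglyMeasurable_fun_sum s fun i _ =>
          (hgm i).smul_const (b i)).aestronglyMeasurable
      · filter_upwards [hgood] with ω h
        exact hGsum ω h
    obtain ⟨h, hh, hle⟩ := hj.solid f (AEEqFun.mk G hGm) (by
      filter_upwards [hgood, AEEqFun.coeFn_mk G hGm] with ω h1 h2
      rw [h2]
      exact hGle ω h1)
    refine ⟨h, AEEqFun.ext ?_, hle⟩
    have h1 : ∀ᵐ ω ∂μ, (∀ i, inner ℝ (b i) (j h ω) = g (i, ω)) := by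
      rw [hh]
      filter_upwards [hgood, AEEqFun.coeFn_mk G hGm] with ω h2 h3 i
      rw [h3]
      exact hGin ω h2 i
    filter_upwards [hj' h, ae_snd μ W h1] with q h2 h3
    rw [h2]
    exact h3 q.1

end Pool.Agent.Helper60.RR
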